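import Mathlib

set_option autoImplicit false

/-!
The binomial tree on the natural numbers: the parent of `x > 0` is `x` with the lowest binary
digit `1` removed.
-/

namespace Run7.h569.BinTree

/-- `x` with its lowest binary digit one removed -/
def par (x : ℕ) : ℕ :=
  if h : x = 0 then 0 else if x % 2 = 1 then x - 1 else 2 * par (x / 2)
termination_by x
decreasing_by omega

/-- number of trailing zeros -/
def tz (x : ℕ) : ℕ :=
  if h : x = 0 then 0 else if x % 2 = 1 then 0 else tz (x / 2) + 1
termination_by x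
decreasing_by omega

theorem par_zero : par 0 = 0 := by rw [par]; simp

theorem par_odd (x : ℕ) : par (2 * x + 1) = 2 * x := by
  rw [par, dif_neg (by omega), if_pos (by omega)]; omega

theorem par_even (x : ℕ) : par (2 * x) = 2 * par x := by
  rcases Nat.eq_zero_or_pos x with rfl | hx
  · simp [par_zero]
  · rw [par, dif_neg (by omega), if_neg (by omega)]
    congr 2
    omega

theorem tz_odd (x : ℕ) : tz (2 * x + 1) = 0 := by
  rw [tz, dif_neg (by omega), if_pos (by omega)]

theorem tz_even {x : ℕ} (hx : 0 < x) : tz (2 * x) = tz x + 1 := by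
  rw [tz, dif_neg (by omega), if_neg (by omega)]
  congr 2
  omega

theorem par_lt {x : ℕ} (hx : 0 < x) : par x < x := by
  induction x using Nat.strong_induction_on with
  | _ x ih =>
    rcases Nat.even_or_odd' x with ⟨y, rfl | rfl⟩
    · rw [par_even]
      have := ih y (by omega) (by omega)
      omega
    · rw [par_odd]; omega

theorem par_le (x : ℕ) : par x ≤ x := by
  rcases Nat.eq_zero_or_pos x with rfl | hx
  · rw [par_zero]
  · exact (par_lt hx).le

theorem eq_add {x : ℕ} (hx : 0 < x) : par x + 2 ^ tz x = x := by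
  induction x using Nat.strong_induction_on with
  | _ x ih =>
    rcases Nat.even_or_odd' x with ⟨y, rfl | rfl⟩
    · have := ih y (by omega) (by omega)
      rw [par_even, tz_even (by omega), pow_succ]
      omega
    · rw [par_odd, tz_odd]; simp

theorem tz_lt_of_lt {x m : ℕ} (hx : 0 < x) (h : x < 2 ^ m) : tz x < m := by
  have h1 := eq_add hx
  have h2 : 2 ^ tz x < 2 ^ m := by omega
  exact (Nat.pow_lt_pow_iff_right (by norm_num)).1 h2

theorem tz_lt_par {x : ℕ} (hx : 0 < par x) : tz x < tz (par x) := by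
  induction x using Nat.strong_induction_on with
  | _ x ih =>
    rcases Nat.even_or_odd' x with ⟨y, rfl | rfl⟩
    · rw [par_even] at hx ⊢
      have hy : 0 < par y := by omega
      have hy0 : 0 < y := lt_of_lt_of_le hy (par_le y)
      have := ih y (by omega) hy
      rw [tz_even hy0, tz_even hy]
      omega
    · rw [par_odd] at hx ⊢
      rw [tz_odd, tz_even (by omega)]
      omega

theorem par_add {m v x : ℕ} (hx : 0 < x) (hxm : x < 2 ^ m) :
    par (2 ^ m * v + x) = 2 ^ m * v + par x := by
  induction m generalizing x with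
  | zero => simp at hxm; omega
  | succ m ih =>
    rcases Nat.even_or_odd' x with ⟨y, rfl | rfl⟩
    · rw [show 2 ^ (m + 1) * v + 2 * y = 2 * (2 ^ m * v + y) by ring, par_even, par_even,
        ih (by omega) (by rw [pow_succ] at hxm; omega)]
      ring
    · rw [show 2 ^ (m + 1) * v + (2 * y + 1) = 2 * (2 ^ m * v + y) + 1 by ring, par_odd, par_odd]
      ring

/-- the infinite binomial tree -/
def G : SimpleGraph ℕ where
  Adj x y := (0 < x ∧ par x = y) ∨ (0 < y ∧ par y = x)
  symm := ⟨fun _ _ h => h.symm⟩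
  loopless := ⟨fun x h => by
    rcases h with ⟨h1, h2⟩ | ⟨h1, h2⟩ <;> exact absurd h2 (par_lt h1).ne⟩

/-- `x` is `u` or a descendant of `u` -/
def Desc (u x : ℕ) : Prop := ∃ i, par^[i] x = u

theorem iter_le (i x : ℕ) : par^[i] x ≤ x := by
  induction i generalizing x with
  | zero => simp
  | succ i ih => rw [Function.iterate_succ_apply]; exact (ih _).trans (par_le x)

theorem Desc.le {u x : ℕ} (h : Desc u x) : u ≤ x := by
  obtain ⟨i, rfl⟩ := h; exact iter_le i x

theorem Desc.step {u x y : ℕ} (h : Desc u x) (ha : G.Adj x y) (hn : ¬ (x = u ∧ y = par u)) :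
    Desc u y := by
  obtain ⟨i, hi⟩ := h
  rcases ha with ⟨h1, h2⟩ | ⟨h1, h2⟩
  · cases i with
    | zero =>
      exact absurd ⟨hi, by rw [← h2]; exact congrArg par hi⟩ hn
    | succ i => exact ⟨i, by rw [← h2, ← Function.iterate_succ_apply]; exact hi⟩
  · exact ⟨i + 1, by rw [Function.iterate_succ_apply, h2]; exact hi⟩

/-- If a walk from `u` to `y` never uses the edge from `u` to its parent, then `y` is a
descendant of `u`. -/
theorem desc_of_reachable {α : Type} {H : SimpleGraph α} {f : α → ℕ} {u : ℕ}
    (hf : ∀ a b, H.Adj a b → G.Adj (f a) (f b) ∧ ¬ (f a = u ∧ f b = par u))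
    {a b : α} (h : H.Reachable a b) (ha : Desc u (f a)) : Desc u (f b) := by
  obtain ⟨w⟩ := h
  induction w with
  | nil => exact ha
  | cons hadj _ ih => exact ih (ha.step (hf _ _ hadj).1 (hf _ _ hadj).2)

theorem G_acyclic : G.IsAcyclic := by
  rw [SimpleGraph.isAcyclic_iff_forall_adj_isBridge]
  have key : ∀ u : ℕ, 0 < u → G.IsBridge s(u, par u) := by
    intro u hu
    rw [SimpleGraph.isBridge_iff]
    intro hr
    have := desc_of_reachable (f := id) (u := u) (fun a b hab => ?_) hr ⟨0, rfl⟩
    · exact absurd this.le (not_le.2 (par_lt hu))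
    · rw [SimpleGraph.deleteEdges_adj] at hab
      refine ⟨hab.1, fun ⟨h1, h2⟩ => hab.2 ?_⟩
      simp only [id] at h1 h2
      rw [h1, h2]; exact Set.mem_singleton _
  intro v w hvw
  rcases hvw with ⟨h1, h2⟩ | ⟨h1, h2⟩
  · rw [← h2]; exact key v h1
  · rw [← h2, Sym2.eq_swap]; exact key w h1

/-- the binomial tree of order `n` -/
def T (n : ℕ) : SimpleGraph (Fin (2 ^ n)) := G.comap Fin.val

theorem T_isTree (n : ℕ) : (T n).IsTree := by
  have : NeZero (2 ^ n) := ⟨by positivity⟩
  refine ⟨?_, ?_⟩
  · have h0 : ∀ (x : ℕ) (hx : x < 2 ^ n), (T n).Reachable ⟨x, hx⟩ 0 := by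
      intro x
      induction x using Nat.strong_induction_on with
      | _ x ih =>
        intro hx
        rcases Nat.eq_zero_or_pos x with rfl | h
        · exact SimpleGraph.Reachable.refl _
        · have hlt := par_lt h
          have hadj : (T n).Adj ⟨x, hx⟩ ⟨par x, hlt.trans hx⟩ := Or.inl ⟨h, rfl⟩
          exact hadj.reachable.trans (ih _ hlt _)
    have : Nonempty (Fin (2 ^ n)) := ⟨0⟩
    exact ⟨fun a b => (h0 a a.2).trans (h0 b b.2).symm⟩
  · exact SimpleGraph.IsAcyclic.of_comap Fin.valEmbedding G_acyclic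

end Run7.h569.BinTree
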