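import Pool.Agent.Run7.h569.BinTree.Count

set_option autoImplicit false

open Finset

namespace Run7.h569.BinTree

theorem sum_tz (n : ℕ) :
    ∑ r ∈ range (2 ^ n), (if r = 0 then (0 : ℝ) else (3 / 2 : ℝ) ^ tz r) ≤ 2 * 2 ^ n := by
  induction n with
  | zero => simp
  | succ n ih =>
    have key : ∀ m : ℕ, ∑ r ∈ range (2 * m), (if r = 0 then (0 : ℝ) else (3 / 2 : ℝ) ^ tz r)
        = (3 / 2) * ∑ r ∈ range m, (if r = 0 then (0 : ℝ) else (3 / 2 : ℝ) ^ tz r) + m := by
      intro m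
      induction m with
      | zero => simp
      | succ m ihm =>
        rw [show 2 * (m + 1) = 2 * m + 1 + 1 by ring, sum_range_succ, sum_range_succ, ihm,
          sum_range_succ, if_neg (show 2 * m + 1 ≠ 0 by omega), tz_odd]
        rcases Nat.eq_zero_or_pos m with rfl | hm
        · simp
        · rw [if_neg (by omega), if_neg (by omega), tz_even hm, pow_succ]
          push_cast; ring
    rw [pow_succ, mul_comm, key]
    push_cast
    rw [pow_succ]
    linarith

theorem exists_const (k : ℕ) : ∃ C : ℝ, 0 < C ∧ ∀ t : ℕ, (t : ℝ) ^ k ≤ C * (3 / 2) ^ t := by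
  have h := tendsto_pow_const_div_const_pow_of_one_lt k (show (1 : ℝ) < 3 / 2 by norm_num)
  obtain ⟨C, hC⟩ := h.bddAbove_range
  refine ⟨max C 1, by positivity, fun t => ?_⟩
  have h1 : (t : ℝ) ^ k / (3 / 2) ^ t ≤ C := hC ⟨t, rfl⟩
  rw [div_le_iff₀ (by positivity)] at h1
  exact h1.trans (mul_le_mul_of_nonneg_right (le_max_left _ _) (by positivity))

theorem Z_le' (k : ℕ) : ∃ C : ℝ, 0 < C ∧ ∀ n : ℕ, (Z (k + 1) (T n) : ℝ) ≤ C * 2 ^ n := by
  obtain ⟨C, hC, hCt⟩ := exists_const k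
  refine ⟨k.factorial * C * 3, by positivity, fun n => ?_⟩
  have h1 : (Z (k + 1) (T n) : ℝ) ≤ ∑ r ∈ range (2 ^ n), (k.factorial : ℝ) * (lev n r : ℝ) ^ k := by
    have := (Z_le n k).trans (sum_le_sum fun r _ => card_Fam r (lev n r) k)
    have h : ((Z (k + 1) (T n) : ℕ) : ℝ) ≤
        ((∑ r ∈ range (2 ^ n), k.factorial * lev n r ^ k : ℕ) : ℝ) := by exact_mod_cast this
    push_cast at h
    exact h
  refine h1.trans ?_
  rw [← mul_sum, mul_assoc, mul_assoc]
  refine mul_le_mul_of_nonneg_left ?_ (by positivity)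
  have h2 : ∀ r ∈ range (2 ^ n), (lev n r : ℝ) ^ k ≤
      C * ((if r = 0 then (0 : ℝ) else (3 / 2 : ℝ) ^ tz r) + if r = 0 then (3 / 2 : ℝ) ^ n else 0) := by
    intro r _
    refine (hCt (lev n r)).trans (le_of_eq ?_)
    unfold lev
    split_ifs <;> simp
  refine (sum_le_sum h2).trans ?_
  rw [← mul_sum, sum_add_distrib, sum_ite_eq' (range (2 ^ n)) 0,
    if_pos (by simp)]
  refine mul_le_mul_of_nonneg_left ?_ hC.le
  have h3 := sum_tz n
  have h4 : ((3 : ℝ) / 2) ^ n ≤ 2 ^ n := pow_le_pow_left₀ (by norm_num) (by norm_num) n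
  linarith

/-- number of vertex sets inducing a copy of `S` -/
noncomputable def c {V W : Type} (S : SimpleGraph W) (T : SimpleGraph V) : ℕ :=
  Set.ncard {U : Set V | Nonempty (T.induce U ≃g S)}

theorem c_le_Z {k : ℕ} {V : Type} [Finite V] {S : SimpleGraph (Fin k)} (hS : S.IsTree)
    (T : SimpleGraph V) : c S T ≤ Z k T := by
  refine Set.ncard_le_ncard ?_ (Set.toFinite _)
  rintro U ⟨e⟩
  refine ⟨?_, e.connected_iff.2 hS.1⟩
  have := Nat.card_congr e.toEquiv
  rw [Nat.card_coe_set_eq, Nat.card_fin] at this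
  exact this

/-- there are many copies of each tree in the binomial trees -/
theorem le_c {k : ℕ} {S : SimpleGraph (Fin (k + 1))} (hS : S.IsTree) {n : ℕ} (hn : k ≤ n) :
    2 ^ (n - k) ≤ c S (T n) := by
  obtain ⟨φ, hφ⟩ := exists_embedding k _ S hS (by simp)
  have hlt : ∀ (j : Fin (2 ^ (n - k))) (x : Fin (k + 1)), 2 ^ k * (j : ℕ) + φ x < 2 ^ n := by
    intro j x
    have h1 := hφ x
    have h2 : 2 ^ k * ((j : ℕ) + 1) ≤ 2 ^ k * 2 ^ (n - k) := Nat.mul_le_mul_left _ j.2
    rw [← pow_add, Nat.add_sub_cancel' hn] at h2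
    calc 2 ^ k * (j : ℕ) + φ x < 2 ^ k * j + 2 ^ k := by omega
      _ = 2 ^ k * ((j : ℕ) + 1) := by ring
      _ ≤ 2 ^ n := h2
  let ψ : ∀ j : Fin (2 ^ (n - k)), S ↪g T n := fun j =>
    { toFun := fun x => ⟨2 ^ k * (j : ℕ) + φ x, hlt j x⟩
      inj' := fun a b hab => by
        have := congrArg Fin.val hab
        simp only at this
        exact φ.injective (by omega)
      map_rel_iff' := fun {a b} => by
        change G.Adj (2 ^ k * (j : ℕ) + φ a) (2 ^ k * (j : ℕ) + φ b) ↔ S.Adj a b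
        rw [adj_translate (hφ a) (hφ b)]
        exact φ.map_rel_iff }
  have hinj : Function.Injective fun j => Set.range (ψ j) := by
    intro i j hij
    have h0 : ψ i 0 ∈ Set.range (ψ j) := by
      have hij' : Set.range (ψ i) = Set.range (ψ j) := hij
      rw [← hij']; exact ⟨0, rfl⟩
    obtain ⟨y, hy⟩ := h0
    have hy' : 2 ^ k * (j : ℕ) + φ y = 2 ^ k * (i : ℕ) + φ 0 := congrArg Fin.val hy
    have h1 := hφ y
    have h2 := hφ 0
    have h3 : (2 ^ k * (j : ℕ) + φ y) / 2 ^ k = j := by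
      rw [Nat.mul_add_div (by positivity), Nat.div_eq_of_lt h1]; simp
    have h4 : (2 ^ k * (i : ℕ) + φ 0) / 2 ^ k = i := by
      rw [Nat.mul_add_div (by positivity), Nat.div_eq_of_lt h2]; simp
    rw [hy', h4] at h3
    exact Fin.ext h3
  have : 2 ^ (n - k) = (Set.range fun j => Set.range (ψ j)).ncard := by
    rw [← Set.image_univ, Set.ncard_image_of_injective _ hinj, Set.ncard_univ, Nat.card_fin]
  rw [this]
  refine Set.ncard_le_ncard ?_ (Set.toFinite _)
  rintro _ ⟨j, rfl⟩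
  exact ⟨(ψ j).isoInduceRange.symm⟩

end Run7.h569.BinTree
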