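import Pool.Agent.Run7.h569.BinTree.Embed

set_option autoImplicit false

open Finset

namespace Run7.h569.BinTree

/-- the sets obtained from `{r}` by attaching `k` children, one after the other, each by adding
`2 ^ j` with `j < t` to an element already present -/
def Fam (r t : ℕ) : ℕ → Finset (Finset ℕ)
  | 0 => {{r}}
  | k + 1 => (Fam r t k).biUnion fun W => W.biUnion fun u =>
      (range t).image fun j => insert (u + 2 ^ j) W

theorem card_mem_Fam {r t : ℕ} (k : ℕ) : ∀ W ∈ Fam r t k, W.card ≤ k + 1 := by
  induction k with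
  | zero => intro W hW; simp [Fam] at hW; simp [hW]
  | succ k ih =>
    intro W hW
    simp only [Fam, mem_biUnion, mem_image] at hW
    obtain ⟨W', hW', u, _, j, _, rfl⟩ := hW
    exact (card_insert_le _ _).trans (Nat.succ_le_succ (ih W' hW'))

theorem card_Fam (r t k : ℕ) : (Fam r t k).card ≤ k.factorial * t ^ k := by
  induction k with
  | zero => simp [Fam]
  | succ k ih =>
    have h1 : ∀ W ∈ Fam r t k, (W.biUnion fun u =>
        (range t).image fun j => insert (u + 2 ^ j) W).card ≤ (k + 1) * t := by
      intro W hW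
      refine (card_biUnion_le_card_mul _ _ t fun u _ => ?_).trans ?_
      · exact card_image_le.trans (by simp)
      · exact Nat.mul_le_mul_right _ (card_mem_Fam k W hW)
    refine (card_biUnion_le_card_mul _ _ _ h1).trans ?_
    calc (Fam r t k).card * ((k + 1) * t) ≤ (k.factorial * t ^ k) * ((k + 1) * t) :=
          Nat.mul_le_mul_right _ ih
      _ = (k + 1).factorial * t ^ (k + 1) := by
          rw [Nat.factorial_succ, pow_succ]; ring

theorem mem_Fam {r t : ℕ} (k : ℕ) : ∀ U : Finset ℕ, U.card = k + 1 → r ∈ U →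
    (∀ u ∈ U, r ≤ u) → (∀ u ∈ U, u ≠ r → par u ∈ U ∧ tz u < t) → U ∈ Fam r t k := by
  induction k with
  | zero =>
    intro U hU hr _ _
    obtain ⟨a, rfl⟩ := card_eq_one.1 hU
    simp at hr
    simp [Fam, hr]
  | succ k ih =>
    intro U hU hr hmin hpar
    have hne : U.Nonempty := ⟨r, hr⟩
    let x := U.max' hne
    have hxU : x ∈ U := max'_mem _ _
    have hle : ∀ u ∈ U, u ≤ x := fun u hu => le_max' _ _ hu
    have hxr : x ≠ r := by
      intro h
      have : U ⊆ {r} := by
        intro u hu
        rw [mem_singleton]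
        exact le_antisymm (h ▸ hle u hu) (hmin u hu)
      have := card_le_card this
      simp at this; omega
    have hx0 : 0 < x := by
      have := hmin x hxU; omega
    have hparx : par x ∈ U.erase x := by
      rw [mem_erase]; exact ⟨(par_lt hx0).ne, (hpar x hxU hxr).1⟩
    have hW : U.erase x ∈ Fam r t k := by
      refine ih _ (by rw [card_erase_of_mem hxU]; omega) (mem_erase.2 ⟨hxr.symm, hr⟩)
        (fun u hu => hmin u (mem_of_mem_erase hu)) fun u hu hur => ?_
      have huU := mem_of_mem_erase hu
      refine ⟨mem_erase.2 ⟨?_, (hpar u huU hur).1⟩, (hpar u huU hur).2⟩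
      have h0 : 0 < u := by have := hmin u huU; omega
      have := par_lt h0
      have := hle u huU
      omega
    simp only [Fam, mem_biUnion, mem_image, mem_range]
    refine ⟨_, hW, par x, hparx, tz x, (hpar x hxU hxr).2, ?_⟩
    rw [eq_add hx0, insert_erase hxU]

/-- the exponent bound for subtrees of `T n` with smallest element `r` -/
def lev (n r : ℕ) : ℕ := if r = 0 then n else tz r

/-- connected vertex sets of `T n` are closed under taking parents, up to the root -/
theorem connected_closed {n : ℕ} {U : Set (Fin (2 ^ n))} (hU : ((T n).induce U).Connected)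
    {r : Fin (2 ^ n)} (hr : r ∈ U) (hmin : ∀ u ∈ U, r ≤ u) {u : Fin (2 ^ n)} (hu : u ∈ U)
    (hur : u ≠ r) : ∃ w ∈ U, (w : ℕ) = par u := by
  by_contra hcon
  push Not at hcon
  have := desc_of_reachable (H := (T n).induce U) (f := fun a => ((a : Fin (2 ^ n)) : ℕ))
    (u := (u : ℕ)) (fun a b hab => ?_) (hU.preconnected ⟨u, hu⟩ ⟨r, hr⟩) ⟨0, rfl⟩
  · have h1 : (u : ℕ) ≤ r := this.le
    exact hur (le_antisymm h1 (hmin u hu))
  · refine ⟨hab, fun ⟨_, h2⟩ => hcon b b.2 h2⟩

theorem tz_lt_lev {n : ℕ} {U : Set (Fin (2 ^ n))} (hU : ((T n).induce U).Connected)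
    {r : Fin (2 ^ n)} (hr : r ∈ U) (hmin : ∀ u ∈ U, r ≤ u) :
    ∀ (x : ℕ) (hx : x < 2 ^ n), (⟨x, hx⟩ : Fin (2 ^ n)) ∈ U → x ≠ r → tz x < lev n r := by
  intro x
  induction x using Nat.strong_induction_on with
  | _ x ih =>
    intro hx hxU hxr
    have hle : (r : ℕ) ≤ x := hmin _ hxU
    have hx0 : 0 < x := by omega
    obtain ⟨w, hw, hwx⟩ := connected_closed hU hr hmin hxU (fun h => hxr (congrArg Fin.val h))
    change (w : ℕ) = par x at hwx
    have hlt := par_lt hx0
    by_cases hwr : (w : ℕ) = r
    · unfold lev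
      split_ifs with h0
      · exact tz_lt_of_lt hx0 hx
      · have : par x = r := by omega
        have hp : 0 < par x := by omega
        have := tz_lt_par hp
        rw [← hwr, hwx]; exact this
    · have hle' : (r : ℕ) ≤ w := hmin _ hw
      have hp : 0 < par x := by omega
      have h1 := tz_lt_par hp
      have h2 := ih (par x) hlt (by omega) (by
        have : (⟨par x, by omega⟩ : Fin (2 ^ n)) = w := Fin.ext hwx.symm
        rw [this]; exact hw) (by omega)
      omega

/-- number of connected vertex sets of size `k` -/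
noncomputable def Z (k : ℕ) {V : Type} (T : SimpleGraph V) : ℕ :=
  Set.ncard {U : Set V | U.ncard = k ∧ (T.induce U).Connected}

theorem Z_le (n k : ℕ) :
    Z (k + 1) (T n) ≤ ∑ r ∈ range (2 ^ n), (Fam r (lev n r) k).card := by
  classical
  have h1 : Z (k + 1) (T n) ≤ ((range (2 ^ n)).biUnion fun r => Fam r (lev n r) k).card := by
    rw [← Set.ncard_coe_finset]
    refine Set.ncard_le_ncard_of_injOn
      (fun U => (U.toFinite.toFinset.map Fin.valEmbedding : Finset ℕ)) ?_ ?_ (Finset.finite_toSet _)
    · rintro U ⟨hcard, hconn⟩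
      have hne : U.Nonempty := by
        obtain ⟨a⟩ := hconn.nonempty
        exact ⟨a, a.2⟩
      obtain ⟨r, hr, hmin⟩ : ∃ r ∈ U, ∀ u ∈ U, r ≤ u := by
        obtain ⟨r, hr⟩ := U.toFinite.exists_minimal hne
        refine ⟨r, hr.1, fun u hu => ?_⟩
        by_contra hlt
        push Not at hlt
        exact absurd (hr.2 hu hlt.le) (not_le.2 hlt)
      rw [mem_coe, mem_biUnion]
      refine ⟨r, mem_range.2 r.2, mem_Fam k _ ?_ ?_ ?_ ?_⟩
      · rw [card_map, ← Set.ncard_eq_toFinset_card]; exact hcard
      · simp only [mem_map, Set.Finite.mem_toFinset]; exact ⟨r, hr, rfl⟩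
      · intro u hu
        simp only [mem_map, Set.Finite.mem_toFinset] at hu
        obtain ⟨a, ha, rfl⟩ := hu
        exact hmin a ha
      · intro u hu hur
        simp only [mem_map, Set.Finite.mem_toFinset] at hu
        obtain ⟨a, ha, rfl⟩ := hu
        have har : a ≠ r := fun h => hur (congrArg Fin.val h)
        refine ⟨?_, tz_lt_lev hconn hr hmin a a.2 ha hur⟩
        obtain ⟨w, hw, hwa⟩ := connected_closed hconn hr hmin ha har
        simp only [mem_map, Set.Finite.mem_toFinset]
        exact ⟨w, hw, hwa⟩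
    · intro U _ V _ hUV
      have h := Finset.map_injective _ hUV
      exact Set.Finite.toFinset_inj.1 h
  exact h1.trans card_biUnion_le

end Run7.h569.BinTree
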