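import Pool.Agent.Run7.h569.BinTree.Basic

set_option autoImplicit false

namespace Run7.h569.BinTree

theorem par_even' (x : ℕ) : 2 ∣ par x := by
  rcases Nat.even_or_odd' x with ⟨y, rfl | rfl⟩
  · exact ⟨par y, par_even y⟩
  · exact ⟨y, par_odd y⟩

theorem adj_double (a b : ℕ) : G.Adj (2 * a) (2 * b) ↔ G.Adj a b := by
  simp only [G, par_even]
  constructor
  · rintro (⟨h1, h2⟩ | ⟨h1, h2⟩)
    · exact Or.inl ⟨by omega, by omega⟩
    · exact Or.inr ⟨by omega, by omega⟩
  · rintro (⟨h1, h2⟩ | ⟨h1, h2⟩)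
    · exact Or.inl ⟨by omega, by omega⟩
    · exact Or.inr ⟨by omega, by omega⟩

theorem adj_double_odd (a b : ℕ) : G.Adj (2 * a) (2 * b + 1) ↔ a = b := by
  simp only [G, par_odd]
  constructor
  · rintro (⟨h1, h2⟩ | ⟨h1, h2⟩)
    · have := par_even' (2 * a); omega
    · omega
  · rintro rfl
    exact Or.inr ⟨by omega, rfl⟩

/-- every finite tree is an induced subgraph of the binomial tree -/
theorem exists_embedding (k : ℕ) : ∀ (V : Type) [Fintype V] (S : SimpleGraph V), S.IsTree →
    Fintype.card V = k + 1 → ∃ φ : S ↪g G, ∀ v, φ v < 2 ^ k := by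
  classical
  induction k with
  | zero =>
    intro V _ S hS hV
    have hsub : Subsingleton V := by
      rw [← Fintype.card_le_one_iff_subsingleton]; omega
    refine ⟨⟨⟨fun _ => 0, fun a b _ => Subsingleton.elim a b⟩, ?_⟩,
      fun v => show (0 : ℕ) < 2 ^ 0 by norm_num⟩
    intro a b
    rw [Subsingleton.elim a b]
    simp
  | succ k ih =>
    intro V _ S hS hV
    have hnt : Nontrivial V := by
      rw [← Fintype.one_lt_card_iff_nontrivial]; omega
    obtain ⟨v, hv⟩ := hS.exists_vert_degree_one_of_nontrivial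
    obtain ⟨u, hu, huniq⟩ := SimpleGraph.degree_eq_one_iff_existsUnique_adj.1 hv
    have hne : u ≠ v := hu.ne'
    have hS' : (S.induce ({v}ᶜ : Set V)).IsTree :=
      ⟨hS.1.induce_compl_singleton_of_degree_eq_one hv, hS.2.induce _⟩
    obtain ⟨φ, hφ⟩ := ih _ _ hS' (by
      rw [Fintype.card_compl_set]; simp; omega)
    let ψ : V → ℕ := fun x => if h : x = v then 2 * φ ⟨u, hne⟩ + 1 else 2 * φ ⟨x, h⟩
    have hψv : ψ v = 2 * φ ⟨u, hne⟩ + 1 := by simp [ψ]
    have hψ : ∀ x (h : x ≠ v), ψ x = 2 * φ ⟨x, h⟩ := fun x h => by simp [ψ, h]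
    have hinj : Function.Injective ψ := by
      intro a b hab
      by_cases ha : a = v <;> by_cases hb : b = v
      · rw [ha, hb]
      · rw [ha, hψv, hψ b hb] at hab; omega
      · rw [hb, hψv, hψ a ha] at hab; omega
      · rw [hψ a ha, hψ b hb] at hab
        have := φ.injective (show φ ⟨a, ha⟩ = φ ⟨b, hb⟩ by omega)
        exact congrArg Subtype.val this
    have hadj : ∀ b (hb : b ≠ v), G.Adj (ψ b) (ψ v) ↔ S.Adj b v := by
      intro b hb
      rw [hψv, hψ b hb, adj_double_odd]
      constructor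
      · intro h
        have := φ.injective h
        have h' : b = u := congrArg Subtype.val this
        rw [h']; exact hu.symm
      · intro h
        have : b = u := huniq b h.symm
        subst this; rfl
    refine ⟨⟨⟨ψ, hinj⟩, ?_⟩, ?_⟩
    · intro a b
      change G.Adj (ψ a) (ψ b) ↔ S.Adj a b
      by_cases ha : a = v <;> by_cases hb : b = v
      · rw [ha, hb]; simp
      · rw [ha, G.adj_comm, S.adj_comm]; exact hadj b hb
      · rw [hb]; exact hadj a ha
      · rw [hψ a ha, hψ b hb, adj_double]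
        exact φ.map_rel_iff
    · intro x
      change ψ x < 2 ^ (k + 1)
      by_cases hx : x = v
      · rw [hx, hψv, pow_succ]; have := hφ ⟨u, hne⟩; omega
      · rw [hψ x hx, pow_succ]; have := hφ ⟨x, hx⟩; omega

/-- translations by multiples of `2 ^ m` -/
theorem adj_translate {m v x y : ℕ} (hx : x < 2 ^ m) (hy : y < 2 ^ m) :
    G.Adj (2 ^ m * v + x) (2 ^ m * v + y) ↔ G.Adj x y := by
  have key : ∀ x y : ℕ, x < 2 ^ m → y < 2 ^ m →
      ((0 < 2 ^ m * v + x ∧ par (2 ^ m * v + x) = 2 ^ m * v + y) ↔ (0 < x ∧ par x = y)) := by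
    intro x y hx hy
    rcases Nat.eq_zero_or_pos x with rfl | h
    · constructor
      · rintro ⟨h1, h2⟩
        have := par_lt h1
        omega
      · rintro ⟨h1, _⟩; omega
    · rw [par_add h hx]
      constructor
      · rintro ⟨_, h2⟩; exact ⟨h, by omega⟩
      · rintro ⟨_, h2⟩; exact ⟨by omega, by omega⟩
  simp only [G]
  rw [key x y hx hy, key y x hy hx]

end Run7.h569.BinTree
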